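import Pool.Agent.H503R3.FI.Stmts

set_option autoImplicit false

open IsLocalRing

namespace H503R3.FI.TaskF1H884

theorem isUnit_iff {k : Type} [Field k] {s t : k} {R0 : Type} [CommRing R0] {π : T k →+* R0}
    (hπ : PiData k s t R0 π) (r : RR π) : IsUnit r ↔ IsUnit r.1.1 := by
  have := hπ.dom
  have hloc : IsLocalHom π := IsLocalHom.of_surjective π hπ.surj
  constructor
  · intro h
    exact h.map ((RingHom.fst (T k) (T k)).comp (RR π).subtype)
  · intro h
    have hr : π r.1.1 = π r.1.2 := r.2
    have h2 : IsUnit r.1.2 := by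
      refine isUnit_of_map_unit π _ ?_
      rw [← hr]
      exact h.map π
    obtain ⟨a, ha⟩ := h.exists_right_inv
    obtain ⟨b, hb⟩ := h2.exists_right_inv
    have hab : π a = π b := by
      have h3 : π r.1.1 * π a = 1 := by rw [← map_mul, ha, map_one]
      have h4 : π r.1.1 * π b = 1 := by rw [hr, ← map_mul, hb, map_one]
      calc π a = (π r.1.1 * π b) * π a := by rw [h4, one_mul]
        _ = (π r.1.1 * π a) * π b := by ring
        _ = π b := by rw [h3, one_mul]
    refine IsUnit.of_mul_eq_one ⟨(a, b), hab⟩ ?_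
    apply Subtype.ext
    exact Prod.ext ha hb

theorem taskF1 : TaskF1 := by
  intro k _ _ s t R0 _ π hπ
  have := hπ.dom
  have h1 : CharP (MvPolynomial (Fin 4) k) 2 := inferInstance
  have h2 : CharP (T k) 2 :=
    charP_of_injective_algebraMap
      (IsLocalization.injective (T k) (orig k).primeCompl_le_nonZeroDivisors) 2
  have h3 : CharP (T k × T k) 2 := inferInstance
  have hloc : IsLocalRing (RR π) := by
    have : Nontrivial (RR π) := by
      refine ⟨0, 1, fun h => ?_⟩
      have h4 := congrArg (fun r : RR π => r.1.1) h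
      exact zero_ne_one h4
    refine IsLocalRing.of_isUnit_or_isUnit_one_sub_self fun r => ?_
    rw [isUnit_iff hπ, isUnit_iff hπ]
    exact IsLocalRing.isUnit_or_isUnit_one_sub_self r.1.1
  refine ⟨RingHom.charP (RR π).subtype Subtype.val_injective 2, hloc, fun r => ?_⟩
  rw [mem_maximalIdeal, mem_maximalIdeal, mem_nonunits_iff, mem_nonunits_iff, isUnit_iff hπ]

end H503R3.FI.TaskF1H884
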